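import Mathlib

/-!
# Fair coin tossing
-/

set_option linter.unusedSectionVars false
set_option linter.unusedVariables false

namespace Pool.Agent.Lib.MP_547692_lc

open MeasureTheory Set
open scoped ENNReal

/-- a fair coin -/
noncomputable def coin : Measure Bool := (PMF.uniformOfFintype Bool).toMeasure

instance : IsProbabilityMeasure coin := inferInstanceAs (IsProbabilityMeasure
  (PMF.uniformOfFintype Bool).toMeasure)

theorem coin_singleton (b : Bool) : coin {b} = 2⁻¹ := by
  unfold coin
  rw [PMF.toMeasure_apply_singleton _ _ (measurableSet_singleton b)]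
  simp

/-- independent fair coins -/
noncomputable def cm (ι : Type) : Measure (ι → Bool) := Measure.infinitePi fun _ => coin

instance (ι : Type) : IsProbabilityMeasure (cm ι) := inferInstanceAs (IsProbabilityMeasure
  (Measure.infinitePi fun _ : ι => coin))

theorem cm_cyl {ι : Type} (I : Finset ι) (v : ι → Bool) :
    cm ι {x | ∀ i ∈ I, x i = v i} = 2⁻¹ ^ I.card := by
  have h : {x : ι → Bool | ∀ i ∈ I, x i = v i} = Set.pi I fun i => {v i} := by
    ext x
    simp [Set.mem_pi]
  rw [h]
  unfold cm
  rw [Measure.infinitePi_pi _ (fun i _ => measurableSet_singleton _)]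
  simp [coin_singleton]

theorem cm_fin {l : ℕ} (s : Fin l → Bool) :
    cm ℕ {z | (fun i : Fin l => z i) = s} = 2⁻¹ ^ l := by
  have h := cm_cyl (Finset.range l) (fun i => if h : i < l then s ⟨i, h⟩ else true)
  rw [Finset.card_range] at h
  rw [← h]
  congr 1
  ext z
  simp only [mem_ofPred_eq, Finset.mem_range]
  constructor
  · intro hz i hi
    rw [dif_pos hi, ← hz]
  · intro hz
    funext i
    have := hz i i.2
    rw [dif_pos i.2] at this
    exact this

theorem measurable_fin {l : ℕ} : Measurable fun z : ℕ → Bool => (fun i : Fin l => z i) :=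
  measurable_pi_lambda _ fun i => measurable_pi_apply _

theorem measurableSet_fin {l : ℕ} (G : Set (Fin l → Bool)) :
    MeasurableSet {z : ℕ → Bool | (fun i : Fin l => z i) ∈ G} :=
  measurable_fin G.toFinite.measurableSet

theorem cm_set {l j : ℕ} (G : Set (Fin l → Bool)) (hG : Nat.card G * 2 ^ j ≤ 2 ^ l) :
    cm ℕ {z | (fun i : Fin l => z i) ∈ G} ≤ 2⁻¹ ^ j := by
  classical
  have h1 : {z : ℕ → Bool | (fun i : Fin l => z i) ∈ G} =
      ⋃ s ∈ G.toFinset, {z | (fun i : Fin l => z i) = s} := by
    ext z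
    simp
  have h2 : cm ℕ {z | (fun i : Fin l => z i) ∈ G} ≤ (Nat.card G : ℝ≥0∞) * 2⁻¹ ^ l := by
    rw [h1]
    refine (measure_biUnion_finset_le _ _).trans ?_
    simp only [cm_fin, Finset.sum_const, nsmul_eq_mul]
    rw [Set.toFinset_card, ← Nat.card_eq_fintype_card]
  refine h2.trans ?_
  have h3 : (Nat.card G : ℝ≥0∞) * 2 ^ j ≤ 2 ^ l := by exact_mod_cast hG
  rw [← ENNReal.inv_pow, ← ENNReal.inv_pow, ← div_eq_mul_inv]
  rw [ENNReal.div_le_iff (by simp) (by simp)]
  rw [← ENNReal.div_eq_inv_mul, ENNReal.le_div_iff_mul_le (by simp) (by simp)]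
  exact h3

end Pool.Agent.Lib.MP_547692_lc
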