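import Pool.Agent.Lib.MP_1ab623_gt.Statement

/-!
# Definitions for the statement: squares of small sets of reals in a model of `ZFC`

All notions are written out in terms of the membership relation `E` of the model.  Ordered pairs,
functions and natural numbers are those of `Pool.Agent.Lib.MP_1929a6_lc.Statement`; the axioms of
`ZFC` are those of `Pool.Agent.Lib.MP_1ab623_gt.Statement`.

In all definitions `w` is the set of natural numbers of the model and `t` is its number
`2 = {0, 1}`.  The group `G` is the Cantor group `(Z/2)^w`: its elements are the functions from
`w` to `t`, the group operation is addition modulo two in every coordinate, and its Haar measure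
is the product of the uniform measures on the coordinates.
-/

universe u

namespace Pool.Agent.Lib.MP_547692_lc

open Pool.Agent.ZF Pool.Agent.Lib.MP_1929a6_lc Pool.Agent.Lib.MP_1ab623_gt

variable {M : Type u} (E : M → M → Prop)

/-- `z` is the number zero, that is, the empty set. -/
def IsZero (z : M) : Prop := ∀ x, ¬ E x z

/-- `o` is the number one, the set whose only element is zero. -/
def IsOne (o : M) : Prop := ∀ x, E x o ↔ IsZero E x

/-- `t` is the number two, the set whose elements are zero and one. -/
def IsTwo (t : M) : Prop := ∀ x, E x t ↔ IsZero E x ∨ IsOne E x

/-- `x n = 1`. -/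
def Bit (x n : M) : Prop := ∃ o, IsOne E o ∧ Maps E x n o

/-- `y = x + g` in the group `G` (addition modulo two in every coordinate). -/
def IsSum (w x g y : M) : Prop := ∀ n, E n w → (Bit E y n ↔ ¬ (Bit E x n ↔ Bit E g n))

/-- `pr` is an injective map `(i, j) ↦ pr (i, j)` from `w × w` to `w`. -/
structure IsPairing (w pr : M) : Prop where
  total : ∀ i j, E i w → E j w → ∃ k, E k w ∧ Op E pr i j k
  functional : ∀ i j k k', Op E pr i j k → Op E pr i j k' → k = k'
  injective : ∀ i j i' j' k, Op E pr i j k → Op E pr i' j' k → i = i' ∧ j = j'
  domain : ∀ i j k, Op E pr i j k → E i w ∧ E j w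

/-- `y = x ⊗ m`: the coordinate `pr (i, j)` of `y` is the product of the coordinate `i` of `x` and
the coordinate `j` of `m`, and the coordinates that are not of the form `pr (i, j)` are zero.
For fixed `m`, each coordinate of `x ⊗ m` depends on at most one coordinate of `x`, and
`x ↦ x ⊗ m` is a continuous homomorphism from `G` to `G`. -/
def IsTensor (w pr m x y : M) : Prop :=
  ∀ k, E k w → (Bit E y k ↔ ∃ i j, Op E pr i j k ∧ Bit E x i ∧ Bit E m j)

/-- `F` is a set of functions from the natural number `k` to `t` with at most `2 ^ (k - j)`
elements, and without elements if `k < j`: there is an injection `e` from `F` to the set of the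
functions from `k` to `t` whose values at all `i < j` are zero (natural numbers are the sets of
the smaller ones).  So the set of the `x` in `G` that extend an element of `F` is a clopen set of
Haar measure at most `2 ^ (- j)`. -/
def IsSmall (t F k j : M) : Prop :=
  (∀ x, E x F → IsFunction E x k t) ∧
  ∃ e, (∀ x, E x F → ∃ y, Maps E e x y ∧ IsFunction E y k t ∧
      ∀ i, E i j → ∃ z, IsZero E z ∧ Maps E y i z) ∧
    ∀ x x' y, E x F → E x' F → Maps E e x y → Maps E e x' y → x = x'

/-- `T` is a Haar null subset of `G`: for every function `j` from `w` to `w` the set `T` is
covered by clopen sets `U 0, U 1, ...` such that `U n` has measure at most `2 ^ (- j n)`; the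
clopen set `U n` is given by the number `k n` and the set `F n` of functions from `k n` to `t`.

(If `T` has this property, then the outer measure of `T` is zero: take `j n = n + i` for all `n`.
Conversely, if `T` has outer measure zero and `j` is given, then `T` is contained in an open set of
measure at most `2 ^ (- j 0)`; this set is a disjoint union of clopen sets `C 0, C 1, ...`; let
`U 0` be the union of so many of them that the measure of the rest is at most `2 ^ (- j 1)`, let
`U 1` be the union of so many of the following ones that the measure of the rest is at most
`2 ^ (- j 2)`, and so on.) -/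
def IsNull (w t T : M) : Prop :=
  ∀ j, IsFunction E j w w → ∃ k F B, IsFunction E k w w ∧ IsFunction E F w B ∧
    (∀ n a b c, Maps E j n a → Maps E k n b → Maps E F n c → IsSmall E t c b a) ∧
    ∀ x, E x T → ∃ n c s, Maps E F n c ∧ E s c ∧ Sub E s x

/-- `S` is a subset of `G`. -/
def IsSubset (w t S : M) : Prop := ∀ x, E x S → IsFunction E x w t

/-- `S` is a subset of `G` of cardinality at most `non(N)`: it has an injection to every subset
of `G` that is not null. -/
def AtMostNonN (w t S : M) : Prop :=
  IsSubset E w t S ∧ ∀ T, IsSubset E w t T → ¬ IsNull E w t T → ∃ f, IsInjection E f S T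

/-- `x` is in the translate `S + g` of `S`. -/
def InTranslate (w S g x : M) : Prop := ∃ a, E a S ∧ IsSum E w a g x

/-- Every translate `(S + g) × (S + h)` of `S × S` in `G × G` has at most one point in common
with the graph of the homomorphism `x ↦ x ⊗ m` from `G` to `G`: if `x`, `x'` are in `G` such that
`(x, x ⊗ m)` and `(x', x' ⊗ m)` are in `(S + g) × (S + h)`, then `x = x'`. -/
def GraphMeetsTranslatesOnce (w t pr m S : M) : Prop :=
  ∀ g h x x' y y', IsFunction E g w t → IsFunction E h w t → IsFunction E x w t →
    IsFunction E x' w t → IsFunction E y w t → IsFunction E y' w t →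
    IsTensor E w pr m x y → IsTensor E w pr m x' y' →
    InTranslate E w S g x → InTranslate E w S h y →
    InTranslate E w S g x' → InTranslate E w S h y' → x = x'

end Pool.Agent.Lib.MP_547692_lc
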