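import Pool.Agent.Lib.MP_547692_lc.Sys
import Pool.Agent.Lib.MP_547692_lc.Statement
import Pool.Agent.Lib.MP_1ab623_gt.Final

/-!
# The model of `ZFC`
-/

set_option linter.unusedSectionVars false
set_option linter.unusedVariables false
set_option linter.unusedSimpArgs false

universe u

namespace Pool.Agent.Lib.MP_547692_lc

open Pool.Agent.ZF Pool.Agent.Lib.MP_1929a6_lc Pool.Agent.SymExt Pool.Agent.Lib.MP_1ab623_gt

section conv

variable {M : Type u} (E : M → M → Prop)

theorem empty_prop (z : M) : (propLg E).empty z ↔ IsZero E z := by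
  simp only [Lg.empty, prop_all, prop_neg, prop_mem]
  exact Iff.rfl

theorem one_prop (o : M) : (propLg E).one o ↔ IsOne E o := by
  simp only [Lg.one, prop_all, prop_iff, prop_mem, empty_prop]
  exact Iff.rfl

theorem two_prop (t : M) : (propLg E).two t ↔ IsTwo E t := by
  simp only [Lg.two, prop_all, prop_iff, prop_or, prop_mem, empty_prop, one_prop]
  exact Iff.rfl

theorem bit_prop (hE : IsZF E) (x n : M) : (propLg E).bit x n ↔ Bit E x n := by
  simp only [Lg.bit, prop_ex, prop_and, one_prop, app_prop E hE]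
  exact Iff.rfl

theorem dif_prop (hE : IsZF E) (x y n : M) :
    (propLg E).dif x y n ↔ ¬ (Bit E x n ↔ Bit E y n) := by
  simp only [Lg.dif, prop_neg, prop_iff, bit_prop E hE]

theorem small_prop (hE : IsZF E) (t F k j : M) :
    (propLg E).small t F k j ↔ IsSmall E t F k j := by
  simp only [Lg.small, prop_all, prop_imp, prop_and, prop_ex, prop_mem, prop_eq,
    isFun_prop E hE, app_prop E hE, empty_prop, and_imp]
  exact Iff.rfl

theorem null_prop (hE : IsZF E) (w t T : M) : (propLg E).null w t T ↔ IsNull E w t T := by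
  simp only [Lg.null, prop_all, prop_imp, prop_and, prop_ex, prop_mem, sub_prop,
    isFun_prop E hE, app_prop E hE, small_prop E hE, and_imp]
  exact Iff.rfl

theorem inj2_prop (hE : IsZF E) (f S T : M) : (propLg E).inj2 f S T ↔ IsInjection E f S T := by
  simp only [Lg.inj2, prop_all, prop_imp, prop_and, prop_eq,
    isFun_prop E hE, app_prop E hE, and_imp]
  exact Iff.rfl

theorem pairing_prop (hE : IsZF E) (w pr : M) :
    (propLg E).pairing w pr ↔ IsPairing E w pr := by
  simp only [Lg.pairing, prop_all, prop_imp, prop_and, prop_ex, prop_mem, prop_eq,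
    ap2_prop E hE, and_imp]
  exact ⟨fun h => ⟨h.1, h.2.2.1, h.2.1, h.2.2.2⟩, fun h => ⟨h.1, h.3, h.2, h.4⟩⟩

/-- elements of the Cantor group are determined by their bits -/
theorem real_ext (hE : IsZF E) {w t x y : M} (ht : IsTwo E t) (hx : IsFunction E x w t)
    (hy : IsFunction E y w t) (h : ∀ n, E n w → (Bit E x n ↔ Bit E y n)) : x = y := by
  have pair_ext : ∀ {p p' a b : M}, IsPair E p a b → IsPair E p' a b → p = p' :=
    fun h1 h2 => hE.extensionality _ _ fun z => (h1 z).trans (h2 z).symm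
  have key : ∀ x y : M, IsFunction E x w t → IsFunction E y w t →
      (∀ n, E n w → (Bit E x n ↔ Bit E y n)) → ∀ p, E p x → E p y := by
    intro x y hx hy h p hp
    obtain ⟨n, v, hn, hv, hpv⟩ := hx.1 p hp
    have hxn : Maps E x n v := ⟨p, hpv, hp⟩
    obtain ⟨v', ⟨p', hpv', hp'⟩, _⟩ := hy.2 n hn
    have hyn : Maps E y n v' := ⟨p', hpv', hp'⟩
    suffices v = v' by
      subst this
      rw [pair_ext hpv hpv']
      exact hp'
    have hv' : E v' t := by
      obtain ⟨n2, v2, _, hv2, hpv2⟩ := hy.1 p' hp'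
      have h1 : n = n2 := pair_fst E hE hpv' hpv2
      subst h1
      have h2 : Maps E y n v2 := ⟨p', hpv2, hp'⟩
      rw [(hy.2 n hn).unique hyn h2]
      exact hv2
    have bitx : Bit E x n ↔ IsOne E v := by
      constructor
      · rintro ⟨o, ho, h1⟩
        rwa [(hx.2 n hn).unique hxn h1]
      · exact fun h1 => ⟨v, h1, hxn⟩
    have bity : Bit E y n ↔ IsOne E v' := by
      constructor
      · rintro ⟨o, ho, h1⟩
        rwa [(hy.2 n hn).unique hyn h1]
      · exact fun h1 => ⟨v', h1, hyn⟩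
    have hiff : IsOne E v ↔ IsOne E v' := bitx.symm.trans ((h n hn).trans bity)
    rcases (ht v).1 hv with h1 | h1
    · rcases (ht v').1 hv' with h2 | h2
      · exact hE.extensionality _ _ fun z => iff_of_false (h1 z) (h2 z)
      · exact absurd ((hiff.2 h2 v).2 h1) (h1 v)
    · have h2 := hiff.1 h1
      exact hE.extensionality _ _ fun z => (h1 z).trans (h2 z).symm
  exact hE.extensionality _ _ fun p =>
    ⟨key x y hx hy h p, key y x hy hx (fun n hn => (h n hn).symm) p⟩

theorem slope_prop (hE : IsZF E) {w t pr : M} (ht : IsTwo E t) (hp : IsPairing E w pr)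
    (h : (propLg E).slope w t pr) (S : M) (hS : AtMostNonN E w t S) :
    ∃ m, IsFunction E m w t ∧ GraphMeetsTranslatesOnce E w t pr m S := by
  simp only [Lg.slope, prop_all, prop_imp, prop_and, prop_ex, prop_mem, prop_neg, prop_iff,
    isFun_prop E hE, inj2_prop E hE, null_prop E hE, dif_prop E hE, bit_prop E hE,
    ap2_prop E hE] at h
  obtain ⟨m, hm, h1⟩ := h S ⟨hS.1, fun T hT => hS.2 T hT.1 hT.2⟩
  refine ⟨m, hm, ?_⟩
  rintro g hh x x' y y' hg hhh hx hx' hy hy' hxy hxy' ⟨a, ha, hax⟩ ⟨b, hb, hby⟩ ⟨a', ha', hax'⟩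
    ⟨b', hb', hby'⟩
  by_contra hne
  have h2 : ∃ i, E i w ∧ ¬ (Bit E a i ↔ Bit E a' i) := by
    by_contra h3
    push Not at h3
    refine hne (real_ext E hE ht hx hx' fun n hn => ?_)
    rw [hax n hn, hax' n hn, h3 n hn]
  refine h1 a a' b b' ⟨ha, ha', hb, hb', h2⟩ fun k hk => ?_
  have e1 : ¬ (Bit E b k ↔ Bit E b' k) ↔ ¬ (Bit E y k ↔ Bit E y' k) := by
    rw [hby k hk, hby' k hk]; tauto
  have e2 : ∀ i, E i w → (¬ (Bit E a i ↔ Bit E a' i) ↔ ¬ (Bit E x i ↔ Bit E x' i)) := by
    intro i hi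
    rw [hax i hi, hax' i hi]; tauto
  rw [e1, hxy k hk, hxy' k hk]
  constructor
  · intro h3
    by_cases h4 : ∃ i j, Op E pr i j k ∧ Bit E x i ∧ Bit E m j
    · obtain ⟨i, j, hij, hxi, hmj⟩ := h4
      refine ⟨i, j, hij, (e2 i (hp.domain i j k hij).1).2 fun h5 => ?_, hmj⟩
      exact h3 (iff_of_true ⟨i, j, hij, hxi, hmj⟩ ⟨i, j, hij, h5.1 hxi, hmj⟩)
    · have h5 : ∃ i j, Op E pr i j k ∧ Bit E x' i ∧ Bit E m j := by
        by_contra h6
        exact h3 (iff_of_false h4 h6)
      obtain ⟨i, j, hij, hxi, hmj⟩ := h5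
      refine ⟨i, j, hij, (e2 i (hp.domain i j k hij).1).2 fun h6 => ?_, hmj⟩
      exact h4 ⟨i, j, hij, h6.2 hxi, hmj⟩
  · rintro ⟨i, j, hij, hd, hmj⟩ h3
    have hd' := (e2 i (hp.domain i j k hij).1).1 hd
    have e3 : ∀ z, (∃ i j, Op E pr i j k ∧ Bit E z i ∧ Bit E m j) ↔ Bit E z i := by
      intro z
      constructor
      · rintro ⟨i', j', hij', hz, _⟩
        rw [(hp.injective i j i' j' k hij hij').1]
        exact hz
      · exact fun hz => ⟨i, j, hij, hz, hmj⟩
    rw [e3, e3] at h3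
    exact hd' h3

end conv

/-- the main theorem -/
theorem exists_ZFC_model : ∃ (M : Type) (E : M → M → Prop), IsZFC E ∧
    ∃ w t pr : M, IsOmega E w ∧ IsTwo E t ∧ IsPairing E w pr ∧
      ∀ S, AtMostNonN E w t S →
        ∃ m, IsFunction E m w t ∧ GraphMeetsTranslatesOnce E w t pr m S := by
  obtain ⟨M, E, t, hE, _, h⟩ := exists_model (P := Pos rm) tvF
    (fun _ => Classical.arbitrary _) ⊤
  have hZ := hE.isZF
  have hC := h .choice (fun s => by
    rw [eval_choice]
    exact forced_choice ⊤) t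
  have hT := h .rnd (fun s => by
    rw [eval_rnd]
    exact forced_rnd ⊤) t
  rw [eval_choice] at hC
  rw [eval_rnd] at hT
  refine ⟨M, E, ⟨hZ, ?_⟩, ?_⟩
  · simp only [Lg.choice, prop_all, prop_imp, prop_and, prop_ex, prop_mem, prop_eq] at hC
    intro F h1 h2
    obtain ⟨C, h3⟩ := hC F ⟨h1, fun x y t h => h2 x y t h.1.1 h.1.2 h.2.1 h.2.2⟩
    refine ⟨C, fun x hx => ?_⟩
    obtain ⟨t, ht, ht'⟩ := h3 x hx
    exact ⟨t, ht, ht'⟩
  · simp only [Lg.rnd, prop_ex, prop_and, isOm_prop E hZ, two_prop, pairing_prop E hZ] at hT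
    obtain ⟨w, t, pr, hw, ht, hp, hs⟩ := hT
    exact ⟨w, t, pr, hw, ht, hp, fun S hS => slope_prop E hZ ht hp hs S hS⟩

end Pool.Agent.Lib.MP_547692_lc
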