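import Pool.Agent.Lib.MP_547692_lc.Slope

/-!
# Small sets have good slopes
-/

set_option linter.unusedSectionVars false
set_option linter.unusedVariables false
set_option linter.unusedSimpArgs false

namespace Pool.Agent.Lib.MP_547692_lc

open MeasureTheory Set Pool.Agent.SymExt SN
open scoped ENNReal

section gen

variable {P : Type} [PartialOrder P] [OrderTop P]

theorem isFun_left {x x' A B : VN P} {p : P} (h : e x x' p) (hx : lg.isFun x' A B p) :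
    lg.isFun x A B p := by
  rw [isFun_iff] at hx ⊢
  refine ⟨fun z q hq hz => hx.1 z q hq (m_right (RO.mono _ hq h) hz), fun y q hq hy r hr => ?_,
    fun y y' y'' q hq h1 h2 => hx.2.2 y y' y'' q hq (m_right (RO.mono _ hq h) h1)
      (m_right (RO.mono _ hq h) h2)⟩
  obtain ⟨s, hs, w, hw⟩ := hx.2.1 y q hq hy r hr
  exact ⟨s, hs, w, m_right (e_symm (RO.mono _ (hs.trans (hr.trans hq)) h)) hw⟩

end gen

variable {Ω : Type} [MeasurableSpace Ω] {μ : Measure Ω} [IsProbabilityMeasure μ]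

theorem isFun_S0 {x : VN (Pos μ)} {p : Pos μ} (hx : m x S0 p) :
    lg.isFun x (om (Pos μ)) (on 2) p := by
  refine RO.dense _ fun q hq => ?_
  obtain ⟨r, hr, z, hz⟩ := m_S0.1 hx q hq
  exact ⟨r, hr, isFun_left hz (isFun_rnm z r)⟩

/-- values in the set of the ground model reals -/
theorem val_S0 {f S : VN (Pos μ)} {p : Pos μ} (hf : lg.isFun f S S0 p) {a : VN (Pos μ)}
    {q : Pos μ} (hq : q ≤ p) (ha : m a S q) : ∃ r ≤ q, ∃ z, m (op a (rnm z)) f r := by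
  have hf' := isFun_iff.1 hf
  obtain ⟨r, hr, y, hy⟩ := hf'.2.1 a q hq ha q le_rfl
  obtain ⟨s, hs, a', y', _, hy', he⟩ := hf'.1 _ r (hr.trans hq) hy r le_rfl
  obtain ⟨h1, h2⟩ := op_inj he
  obtain ⟨t, ht, z, hz⟩ := m_S0.1 hy' s le_rfl
  exact ⟨t, ht.trans (hs.trans hr), z, m_left (op_congr (e_refl _ _)
    (e_trans (RO.mono _ ht h2) hz)) (RO.mono _ (ht.trans hs) hy)⟩

/-- the statement about a slope -/
def Bad (m' a b c d : VN (Pos μ)) (p : Pos μ) : Prop :=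
  ∀ (k : VN (Pos μ)), ∀ q ≤ p, m k (om (Pos μ)) q → ∀ r ≤ q, (lg.dif c d k r ↔
    ∀ s ≤ r, ∃ t ≤ s, ∃ i, ∀ u ≤ t, ∃ v ≤ u, ∃ j, m (op (op i j) k) prn v ∧ lg.dif a b i v ∧
      lg.bit m' j v)

theorem Bad.bit {m' a b c d : VN (Pos μ)} {p : Pos μ} (h : Bad m' a b c d p) {n k : ℕ}
    {q : Pos μ} (hq : q ≤ p) (hn : lg.dif a b (on n) q) :
    lg.dif c d (on (Nat.pair n k)) q ↔ lg.bit m' (on k) q := by
  rw [h (on (Nat.pair n k)) q hq (m_on_om _ _) q le_rfl]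
  constructor
  · intro h1
    refine RO.dense _ fun r hr => ?_
    obtain ⟨s, hs, x, h2⟩ := h1 r hr
    obtain ⟨t, ht, y, h3, h4, h5⟩ := h2 s le_rfl
    obtain ⟨u, hu, i, j, h6, h7, h8⟩ := m_prn.1 h3 t le_rfl
    have h9 := rig_on _ _ _ h8
    rw [Nat.pair_eq_pair] at h9
    obtain ⟨rfl, rfl⟩ := h9
    refine ⟨u, hu.trans (ht.trans hs), ?_⟩
    rw [bit_iff] at h5 ⊢
    exact m_left (op_congr h7 (e_refl _ _)) (RO.mono _ hu h5)
  · intro h1 s hs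
    refine ⟨s, le_rfl, on n, fun u hu => ⟨u, le_rfl, on k, on_prn n k u,
      RO.mono _ (hu.trans hs) hn, RO.mono _ (hu.trans hs) h1⟩⟩

theorem forced_slope {Λ : Type} (X : Λ → ℕ → Ω → Bool) (hX : ∀ α n, Measurable (X α n))
    (hd : ∀ α β, α ≠ β → μ {ω | ∀ n, X α n ω = X β n ω} = 0)
    (hΛ : ∀ h : Λ → ((ℕ → Bool) × (ℕ → Bool) × (ℕ → Bool) × (ℕ → Bool)),
      ∃ v, Uncountable (h ⁻¹' {v})) (p : Pos μ) : lg.slope (om (Pos μ)) (on 2) prn p := by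
  simp only [Lg.slope, ro_and, ro_all, ro_imp, ro_ex, ro_neg, ro_iff, ro_mem, ap2_iff]
  rintro S q hq ⟨hS, hT⟩ r0 hr0
  obtain ⟨r1, hr1, f, hf⟩ := hT S0 r0 hr0 ⟨fun x q _ hx => isFun_S0 hx,
    fun q _ => not_null q⟩ r0 le_rfl
  simp only [Lg.inj2, ro_and, ro_all, ro_imp, ro_eq, app_iff] at hf
  obtain ⟨hf1, hf2⟩ := hf
  by_contra hcon
  have key : ∀ α, ∃ A ≤ r1, ∃ a b c d z1 z2 z3 z4, Bad (mnm (X α)) a b c d A ∧
      (∀ q2 ≤ A, ∃ q3 ≤ q2, ∃ i, m i (om (Pos μ)) q3 ∧ lg.dif a b i q3) ∧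
      m (op a (rnm z1)) f A ∧ m (op b (rnm z2)) f A ∧ m (op c (rnm z3)) f A ∧
      m (op d (rnm z4)) f A := by
    intro α
    by_contra hno
    refine hcon ⟨r1, hr1, mnm (X α), isFun_mnm (hX α) r1, ?_⟩
    rintro a b c d q1 hq1 ⟨ha, hb, hc, hd', hab⟩ q2 hq2 hbad
    have hq21 := hq2.trans hq1
    obtain ⟨q3, hq3, z1, h1⟩ := val_S0 hf1 hq21 (RO.mono _ hq2 ha)
    obtain ⟨q4, hq4, z2, h2⟩ := val_S0 hf1 (hq3.trans hq21) (RO.mono _ (hq3.trans hq2) hb)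
    obtain ⟨q5, hq5, z3, h3⟩ := val_S0 hf1 ((hq4.trans hq3).trans hq21)
      (RO.mono _ ((hq4.trans hq3).trans hq2) hc)
    obtain ⟨q6, hq6, z4, h4⟩ := val_S0 hf1 ((hq5.trans (hq4.trans hq3)).trans hq21)
      (RO.mono _ ((hq5.trans (hq4.trans hq3)).trans hq2) hd')
    have hq62 : q6 ≤ q2 := hq6.trans (hq5.trans (hq4.trans hq3))
    exact hno ⟨q6, hq62.trans hq21, a, b, c, d, z1, z2, z3, z4,
      fun k q hq => hbad k q (hq.trans hq62),
      fun q2' hq2' => hab q2' (hq2'.trans (hq62.trans hq2)),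
      RO.mono _ (hq6.trans (hq5.trans hq4)) h1, RO.mono _ (hq6.trans hq5) h2,
      RO.mono _ hq6 h3, h4⟩
  choose A hA a b c d z1 z2 z3 z4 h1 h2 h3 h4 h5 h6 using key
  obtain ⟨v, hv⟩ := hΛ fun α => (z1 α, z2 α, z3 α, z4 α)
  obtain ⟨⟨i, hi⟩, ⟨j, hj⟩, hij, B, hBi, hBj⟩ := ccc (μ := μ)
    (fun x : (fun α => (z1 α, z2 α, z3 α, z4 α)) ⁻¹' {v} => A x.1)
  have hne : i ≠ j := fun h => hij (Subtype.ext h)
  have hz : (z1 i, z2 i, z3 i, z4 i) = (z1 j, z2 j, z3 j, z4 j) := by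
    rw [show (z1 i, z2 i, z3 i, z4 i) = v from hi, show (z1 j, z2 j, z3 j, z4 j) = v from hj]
  simp only [Prod.mk.injEq] at hz
  obtain ⟨hz1, hz2, hz3, hz4⟩ := hz
  have hB1 : B ≤ r1 := hBi.trans (hA i)
  have ea : e (a i) (a j) B := hf2 _ _ (rnm (z1 i)) B hB1 ⟨RO.mono _ hBi (h3 i), by
    rw [hz1]; exact RO.mono _ hBj (h3 j)⟩
  have eb : e (b i) (b j) B := hf2 _ _ (rnm (z2 i)) B hB1 ⟨RO.mono _ hBi (h4 i), by
    rw [hz2]; exact RO.mono _ hBj (h4 j)⟩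
  have ec : e (c i) (c j) B := hf2 _ _ (rnm (z3 i)) B hB1 ⟨RO.mono _ hBi (h5 i), by
    rw [hz3]; exact RO.mono _ hBj (h5 j)⟩
  have ed : e (d i) (d j) B := hf2 _ _ (rnm (z4 i)) B hB1 ⟨RO.mono _ hBi (h6 i), by
    rw [hz4]; exact RO.mono _ hBj (h6 j)⟩
  obtain ⟨C1, hC1, x, hx, hxd⟩ := h2 i B hBi
  obtain ⟨C, hC, n, hn⟩ := m_om.1 hx C1 le_rfl
  have hCB : C ≤ B := hC.trans hC1
  have hdi : lg.dif (a i) (b i) (on n) C := dif_congr (e_refl _ _) (e_refl _ _) hn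
    (RO.mono _ hC hxd)
  have hdj : lg.dif (a j) (b j) (on n) C := dif_congr (RO.mono _ hCB ea) (RO.mono _ hCB eb)
    (e_refl _ _) hdi
  have hbits : ∀ k : ℕ, ∀ D ≤ C, (lg.bit (mnm (X i)) (on k) D ↔ lg.bit (mnm (X j)) (on k) D) := by
    intro k D hD
    rw [← (h1 i).bit (hD.trans (hCB.trans hBi)) (RO.mono _ hD hdi),
      ← (h1 j).bit (hD.trans (hCB.trans hBj)) (RO.mono _ hD hdj)]
    have hDB := hD.trans hCB
    exact ⟨fun h => dif_congr (RO.mono _ hDB ec) (RO.mono _ hDB ed) (e_refl _ _) h,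
      fun h => dif_congr (e_symm (RO.mono _ hDB ec)) (e_symm (RO.mono _ hDB ed)) (e_refl _ _) h⟩
  -- the two random reals are equal on `C`
  have hms : ∀ α k (v : Bool), MeasurableSet {ω | X α k ω = v} := fun α k v =>
    hX α k (measurableSet_singleton v)
  have hz0 : ∀ k (α β : Λ), (∀ D ≤ C, lg.bit (mnm (X α)) (on k) D → lg.bit (mnm (X β)) (on k) D) →
      μ (C.1 ∩ ({ω | X α k ω = true} ∩ {ω | X β k ω = false})) = 0 := by
    intro k α β hαβ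
    by_contra hne'
    let D : Pos μ := ⟨_, C.2.1.inter ((hms α k true).inter (hms β k false)), hne'⟩
    have hD : D ≤ C := fun x hx => hx.1
    have h7 : lg.bit (mnm (X α)) (on k) D := by
      rw [bit_iff]
      refine (m_mnm (hX α) (b := true)).2 ?_
      rw [sdiff_eq_empty.2 (fun x hx => hx.2.1)]
      exact measure_empty
    have h8 := hαβ D hD h7
    rw [bit_iff] at h8
    have h9 := (m_mnm (hX β) (b := true)).1 h8
    refine D.2.2 (measure_mono_null (show D.1 ⊆ D.1 \ {ω | X β k ω = true} from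
      fun x hx => ⟨hx, fun h => ?_⟩) h9)
    have h10 : X β k x = false := hx.2.2
    have h11 : X β k x = true := h
    rw [h10] at h11
    exact absurd h11 (by decide)
  refine C.2.2 (measure_mono_null (t := {ω | ∀ n, X i n ω = X j n ω} ∪ ⋃ k : ℕ,
    ((C.1 ∩ ({ω | X i k ω = true} ∩ {ω | X j k ω = false})) ∪
      (C.1 ∩ ({ω | X j k ω = true} ∩ {ω | X i k ω = false})))) ?_ ?_)
  · intro ω hω
    by_cases h : ∀ n, X i n ω = X j n ω
    · exact Or.inl h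
    · push Not at h
      obtain ⟨k, hk⟩ := h
      refine Or.inr (mem_iUnion.2 ⟨k, ?_⟩)
      cases h7 : X i k ω <;> cases h8 : X j k ω
      · exact absurd (h7.trans h8.symm) hk
      · exact Or.inr ⟨hω, h8, h7⟩
      · exact Or.inl ⟨hω, h7, h8⟩
      · exact absurd (h7.trans h8.symm) hk
  · refine measure_union_null (hd i j hne) (measure_iUnion_null fun k => ?_)
    exact measure_union_null (hz0 k i j fun D hD => (hbits k D hD).1)
      (hz0 k j i fun D hD => (hbits k D hD).2)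

end Pool.Agent.Lib.MP_547692_lc
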