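import Pool.Agent.SymExt.Top.TopNotions

/-!
# Null sets, evaluated in an arbitrary logic
-/

set_option linter.unusedSectionVars false
set_option linter.unusedVariables false
set_option linter.unusedSimpArgs false

universe u v

namespace Pool.Agent.SymExt

namespace Lg

variable {Ω : Type u} {V : Type v} (l : Lg Ω V)

/-- `o` is the number one -/
def one (o : V) : Ω := l.all fun x => l.iff (l.mem x o) (l.empty x)

/-- `t` is the number two -/
def two (t : V) : Ω := l.all fun x => l.iff (l.mem x t) (l.or (l.empty x) (l.one x))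

/-- `x n = 1` -/
def bit (x n : V) : Ω := l.ex fun o => l.and (l.one o) (l.app x n o)

/-- `x` and `y` differ at `n` -/
def dif (x y n : V) : Ω := l.neg (l.iff (l.bit x n) (l.bit y n))

/-- `F` is a set of functions from `k` to `t` of size at most `2 ^ (k - j)` -/
def small (t F k j : V) : Ω :=
  l.and (l.all fun x => l.imp (l.mem x F) (l.isFun x k t))
    (l.ex fun e => l.and
      (l.all fun x => l.imp (l.mem x F) (l.ex fun y => l.and (l.app e x y) (l.and (l.isFun y k t)
        (l.all fun i => l.imp (l.mem i j) (l.ex fun z => l.and (l.empty z) (l.app y i z))))))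
      (l.all fun x => l.all fun x' => l.all fun y => l.imp
        (l.and (l.mem x F) (l.and (l.mem x' F) (l.and (l.app e x y) (l.app e x' y))))
        (l.eq x x')))

/-- `T` is null -/
def null (w t T : V) : Ω :=
  l.all fun j => l.imp (l.isFun j w w) (l.ex fun k => l.ex fun F => l.ex fun B =>
    l.and (l.isFun k w w) (l.and (l.isFun F w B) (l.and
      (l.all fun n => l.all fun a => l.all fun b => l.all fun c => l.imp
        (l.and (l.app j n a) (l.and (l.app k n b) (l.app F n c))) (l.small t c b a))
      (l.all fun x => l.imp (l.mem x T) (l.ex fun n => l.ex fun c => l.ex fun s =>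
        l.and (l.app F n c) (l.and (l.mem s c) (l.sub s x)))))))

/-- injection -/
def inj2 (f S T : V) : Ω :=
  l.and (l.isFun f S T) (l.all fun x => l.all fun x' => l.all fun y =>
    l.imp (l.and (l.app f x y) (l.app f x' y)) (l.eq x x'))

/-- `pr` is an injective function from `w × w` to `w` -/
def pairing (w pr : V) : Ω :=
  l.and (l.all fun i => l.all fun j => l.imp (l.and (l.mem i w) (l.mem j w))
      (l.ex fun k => l.and (l.mem k w) (l.ap2 pr i j k)))
    (l.and (l.all fun i => l.all fun j => l.all fun i' => l.all fun j' => l.all fun k =>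
        l.imp (l.and (l.ap2 pr i j k) (l.ap2 pr i' j' k)) (l.and (l.eq i i') (l.eq j j')))
      (l.and (l.all fun i => l.all fun j => l.all fun k => l.all fun k' =>
        l.imp (l.and (l.ap2 pr i j k) (l.ap2 pr i j k')) (l.eq k k'))
      (l.all fun i => l.all fun j => l.all fun k =>
        l.imp (l.ap2 pr i j k) (l.and (l.mem i w) (l.mem j w)))))

/-- there is a good slope for each small set -/
def slope (w t pr : V) : Ω :=
  l.all fun S => l.imp (l.and (l.all fun x => l.imp (l.mem x S) (l.isFun x w t))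
      (l.all fun T => l.imp (l.and (l.all fun x => l.imp (l.mem x T) (l.isFun x w t))
        (l.neg (l.null w t T))) (l.ex fun f => l.inj2 f S T)))
    (l.ex fun m => l.and (l.isFun m w t)
      (l.all fun a => l.all fun b => l.all fun c => l.all fun d => l.imp
        (l.and (l.mem a S) (l.and (l.mem b S) (l.and (l.mem c S) (l.and (l.mem d S)
          (l.ex fun i => l.and (l.mem i w) (l.dif a b i))))))
        (l.neg (l.all fun k => l.imp (l.mem k w) (l.iff (l.dif c d k)
          (l.ex fun i => l.ex fun j => l.and (l.ap2 pr i j k)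
            (l.and (l.dif a b i) (l.bit m j))))))))

/-- the sentence -/
def rnd : Ω :=
  l.ex fun w => l.ex fun t => l.ex fun pr =>
    l.and (l.isOm w) (l.and (l.two t) (l.and (l.pairing w pr) (l.slope w t pr)))

end Lg

namespace Fm

/-- one -/
def one (o n : ℕ) : Fm := .all n (.iff (.mem n o) (.empty n (n + 1)))

/-- two -/
def two (t n : ℕ) : Fm := .all n (.iff (.mem n t) (.or (.empty n (n + 1)) (.one n (n + 1))))

/-- `x i = 1` -/
def bit (x i n : ℕ) : Fm := .ex n (.and (.one n (n + 1)) (.app x i n (n + 1)))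

/-- difference -/
def dif (x y i n : ℕ) : Fm := .neg (.iff (.bit x i n) (.bit y i n))

/-- small -/
def small (t F k j n : ℕ) : Fm :=
  .and (.all n (.imp (.mem n F) (.isFun n k t (n + 1))))
    (.ex n (.and
      (.all (n + 1) (.imp (.mem (n + 1) F) (.ex (n + 2) (.and (.app n (n + 1) (n + 2) (n + 3))
        (.and (.isFun (n + 2) k t (n + 3))
        (.all (n + 3) (.imp (.mem (n + 3) j) (.ex (n + 4) (.and (.empty (n + 4) (n + 5))
          (.app (n + 2) (n + 3) (n + 4) (n + 5)))))))))))
      (.all (n + 1) (.all (n + 2) (.all (n + 3) (.imp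
        (.and (.mem (n + 1) F) (.and (.mem (n + 2) F) (.and (.app n (n + 1) (n + 3) (n + 4))
          (.app n (n + 2) (n + 3) (n + 4)))))
        (.eq (n + 1) (n + 2))))))))

/-- null -/
def null (w t T n : ℕ) : Fm :=
  .all n (.imp (.isFun n w w (n + 1)) (.ex (n + 1) (.ex (n + 2) (.ex (n + 3)
    (.and (.isFun (n + 1) w w (n + 4)) (.and (.isFun (n + 2) w (n + 3) (n + 4)) (.and
      (.all (n + 4) (.all (n + 5) (.all (n + 6) (.all (n + 7) (.imp
        (.and (.app n (n + 4) (n + 5) (n + 8)) (.and (.app (n + 1) (n + 4) (n + 6) (n + 8))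
          (.app (n + 2) (n + 4) (n + 7) (n + 8))))
        (.small t (n + 7) (n + 6) (n + 5) (n + 8)))))))
      (.all (n + 4) (.imp (.mem (n + 4) T) (.ex (n + 5) (.ex (n + 6) (.ex (n + 7)
        (.and (.app (n + 2) (n + 5) (n + 6) (n + 8)) (.and (.mem (n + 7) (n + 6))
          (.sub (n + 7) (n + 4) (n + 8))))))))))))))))

/-- injection -/
def inj2 (f S T n : ℕ) : Fm :=
  .and (.isFun f S T n) (.all n (.all (n + 1) (.all (n + 2)
    (.imp (.and (.app f n (n + 2) (n + 3)) (.app f (n + 1) (n + 2) (n + 3)))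
      (.eq n (n + 1))))))

/-- pairing -/
def pairing (w pr n : ℕ) : Fm :=
  .and (.all n (.all (n + 1) (.imp (.and (.mem n w) (.mem (n + 1) w))
      (.ex (n + 2) (.and (.mem (n + 2) w) (.ap2 pr n (n + 1) (n + 2) (n + 3)))))))
    (.and (.all n (.all (n + 1) (.all (n + 2) (.all (n + 3) (.all (n + 4)
        (.imp (.and (.ap2 pr n (n + 1) (n + 4) (n + 5)) (.ap2 pr (n + 2) (n + 3) (n + 4) (n + 5)))
          (.and (.eq n (n + 2)) (.eq (n + 1) (n + 3)))))))))
      (.and (.all n (.all (n + 1) (.all (n + 2) (.all (n + 3)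
        (.imp (.and (.ap2 pr n (n + 1) (n + 2) (n + 4)) (.ap2 pr n (n + 1) (n + 3) (n + 4)))
          (.eq (n + 2) (n + 3)))))))
      (.all n (.all (n + 1) (.all (n + 2)
        (.imp (.ap2 pr n (n + 1) (n + 2) (n + 3)) (.and (.mem n w) (.mem (n + 1) w))))))))

/-- slopes -/
def slope (w t pr n : ℕ) : Fm :=
  .all n (.imp (.and (.all (n + 1) (.imp (.mem (n + 1) n) (.isFun (n + 1) w t (n + 2))))
      (.all (n + 1) (.imp (.and (.all (n + 2) (.imp (.mem (n + 2) (n + 1))
        (.isFun (n + 2) w t (n + 3))))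
        (.neg (.null w t (n + 1) (n + 2)))) (.ex (n + 2) (.inj2 (n + 2) n (n + 1) (n + 3))))))
    (.ex (n + 1) (.and (.isFun (n + 1) w t (n + 2))
      (.all (n + 2) (.all (n + 3) (.all (n + 4) (.all (n + 5) (.imp
        (.and (.mem (n + 2) n) (.and (.mem (n + 3) n) (.and (.mem (n + 4) n)
          (.and (.mem (n + 5) n)
          (.ex (n + 6) (.and (.mem (n + 6) w) (.dif (n + 2) (n + 3) (n + 6) (n + 7))))))))
        (.neg (.all (n + 6) (.imp (.mem (n + 6) w) (.iff (.dif (n + 4) (n + 5) (n + 6) (n + 7))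
          (.ex (n + 7) (.ex (n + 8) (.and (.ap2 pr (n + 7) (n + 8) (n + 6) (n + 9))
            (.and (.dif (n + 2) (n + 3) (n + 7) (n + 9)) (.bit (n + 1) (n + 8) (n + 9))))))))))))))))))

/-- the sentence -/
def rnd : Fm :=
  .ex 0 (.ex 1 (.ex 2 (.and (.isOm 0 3) (.and (.two 1 3) (.and (.pairing 0 2 3)
    (.slope 0 1 2 3))))))

end Fm

section eval

variable {Ω : Type u} {V : Type v} (l : Lg Ω V)

theorem eval_one {o n : ℕ} (ho : o < n) (s : ℕ → V) : l.eval (.one o n) s = l.one (s o) := by
  simp (disch := omega) only [Fm.one, Lg.one, Lg.eval, Lg.eval_iff, eval_empty,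
    Function.update_of_ne, Function.update_self]

theorem eval_two {t n : ℕ} (ht : t < n) (s : ℕ → V) : l.eval (.two t n) s = l.two (s t) := by
  simp (disch := omega) only [Fm.two, Lg.two, Lg.eval, Lg.eval_iff, Lg.eval_or, eval_empty,
    eval_one, Function.update_of_ne, Function.update_self]

theorem eval_bit {x i n : ℕ} (hx : x < n) (hi : i < n) (s : ℕ → V) :
    l.eval (.bit x i n) s = l.bit (s x) (s i) := by
  simp (disch := omega) only [Fm.bit, Lg.bit, Lg.eval_ex, Lg.eval_and, eval_one, eval_app,
    Function.update_of_ne, Function.update_self]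

theorem eval_dif {x y i n : ℕ} (hx : x < n) (hy : y < n) (hi : i < n) (s : ℕ → V) :
    l.eval (.dif x y i n) s = l.dif (s x) (s y) (s i) := by
  simp (disch := omega) only [Fm.dif, Lg.dif, Lg.eval_neg, Lg.eval_iff, eval_bit]

theorem eval_small {t F k j n : ℕ} (ht : t < n) (hF : F < n) (hk : k < n) (hj : j < n)
    (s : ℕ → V) : l.eval (.small t F k j n) s = l.small (s t) (s F) (s k) (s j) := by
  simp (disch := omega) only [Fm.small, Lg.small, Lg.eval, Lg.eval_ex, Lg.eval_and, eval_isFun,
    eval_app, eval_empty, Function.update_of_ne, Function.update_self]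

theorem eval_null {w t T n : ℕ} (hw : w < n) (ht : t < n) (hT : T < n)
    (s : ℕ → V) : l.eval (.null w t T n) s = l.null (s w) (s t) (s T) := by
  simp (disch := omega) only [Fm.null, Lg.null, Lg.eval, Lg.eval_ex, Lg.eval_and, eval_isFun,
    eval_app, eval_small, eval_sub, Function.update_of_ne, Function.update_self]

theorem eval_inj2 {f S T n : ℕ} (hf : f < n) (hS : S < n) (hT : T < n)
    (s : ℕ → V) : l.eval (.inj2 f S T n) s = l.inj2 (s f) (s S) (s T) := by
  simp (disch := omega) only [Fm.inj2, Lg.inj2, Lg.eval, Lg.eval_and, eval_isFun,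
    eval_app, Function.update_of_ne, Function.update_self]

theorem eval_pairing {w pr n : ℕ} (hw : w < n) (hp : pr < n)
    (s : ℕ → V) : l.eval (.pairing w pr n) s = l.pairing (s w) (s pr) := by
  simp (disch := omega) only [Fm.pairing, Lg.pairing, Lg.eval, Lg.eval_ex, Lg.eval_and,
    eval_ap2, Function.update_of_ne, Function.update_self]

theorem eval_slope {w t pr n : ℕ} (hw : w < n) (ht : t < n) (hp : pr < n)
    (s : ℕ → V) : l.eval (.slope w t pr n) s = l.slope (s w) (s t) (s pr) := by
  simp (disch := omega) only [Fm.slope, Lg.slope, Lg.eval, Lg.eval_ex, Lg.eval_and, Lg.eval_neg,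
    Lg.eval_iff, eval_ap2, eval_isFun, eval_null, eval_inj2, eval_dif, eval_bit,
    Function.update_of_ne, Function.update_self]

theorem eval_rnd (s : ℕ → V) : l.eval .rnd s = l.rnd := by
  simp (disch := omega) only [Fm.rnd, Lg.rnd, Lg.eval_ex, Lg.eval_and,
    eval_isOm, eval_two, eval_pairing, eval_slope, Function.update_of_ne, Function.update_self]

end eval

end Pool.Agent.SymExt
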