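import Mathlib
import Pool.Agent.SymExt.Basic

/-!
# The partial order of the sets of positive measure
-/

set_option linter.unusedSectionVars false
set_option linter.unusedVariables false

namespace Pool.Agent.Lib.MP_547692_lc

open MeasureTheory Set Pool.Agent.SymExt
open scoped ENNReal

variable {Ω : Type} [MeasurableSpace Ω] (μ : Measure Ω) [IsProbabilityMeasure μ]

/-- sets of positive measure -/
def Pos : Type := {A : Set Ω // MeasurableSet A ∧ μ A ≠ 0}

variable {μ}

instance : PartialOrder (Pos μ) := inferInstanceAs (PartialOrder {A : Set Ω // _})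

theorem Pos.le_iff {A B : Pos μ} : A ≤ B ↔ A.1 ⊆ B.1 := Iff.rfl

instance : OrderTop (Pos μ) where
  top := ⟨univ, MeasurableSet.univ, by simp⟩
  le_top A := subset_univ _

/-- the condition given by a set of positive measure -/
def mkP (A : Set Ω) (h : MeasurableSet A) (h' : μ A ≠ 0) : Pos μ := ⟨A, h, h'⟩

theorem Pos.inter {A : Pos μ} {b : Set Ω} (hb : MeasurableSet b) (h : μ (A.1 ∩ b) ≠ 0) :
    ∃ B ≤ A, B.1 = A.1 ∩ b := ⟨⟨A.1 ∩ b, A.2.1.inter hb, h⟩, inter_subset_left, rfl⟩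

/-- the countable chain condition -/
theorem ccc {ι : Type} [Uncountable ι] (f : ι → Pos μ) :
    ∃ i j, i ≠ j ∧ ∃ B, B ≤ f i ∧ B ≤ f j := by
  by_contra hcon
  push Not at hcon
  have h1 : Pairwise (Function.onFun (AEDisjoint μ) fun i => (f i).1) := by
    intro i j hij
    by_contra h
    obtain ⟨B, hB, hB'⟩ := Pos.inter (f j).2.1 h
    refine hcon i j hij B hB ?_
    rw [Pos.le_iff, hB']
    exact inter_subset_right
  have h2 := Measure.countable_meas_pos_of_disjoint_of_meas_iUnion_ne_top₀ μ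
    (fun i => (f i).2.1.nullMeasurableSet) h1 (measure_ne_top _ _)
  have h3 : {i : ι | 0 < μ (f i).1} = univ := by
    ext i
    simp only [mem_setOf_eq, mem_univ, iff_true]
    exact pos_iff_ne_zero.2 (f i).2.2
  rw [h3] at h2
  exact not_countable (α := ι) (countable_univ_iff.1 h2)

/-- truth values are given by measurable sets -/
theorem rep (a : RO (Pos μ)) : ∃ b : Set Ω, MeasurableSet b ∧ ∀ A : Pos μ, a A ↔ μ (A.1 \ b) = 0 := by
  classical
  let S : Set ℝ≥0∞ := {t | ∃ b : Set Ω, MeasurableSet b ∧ (∀ A : Pos μ, A.1 ⊆ b → a A) ∧ μ b = t}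
  have hS : S.Nonempty := ⟨0, ∅, MeasurableSet.empty, fun A hA => by
    exfalso
    refine A.2.2 ?_
    rw [subset_empty_iff.1 hA]
    exact measure_empty, measure_empty⟩
  obtain ⟨u, hu, hu', huS⟩ := exists_seq_tendsto_sSup hS (OrderTop.bddAbove _)
  choose b hb1 hb2 hb3 using huS
  have hU : ∀ A : Pos μ, A.1 ⊆ (⋃ n, b n) → a A := by
    intro A hA
    refine RO.dense _ fun B hB => ?_
    have : μ (⋃ n, B.1 ∩ b n) ≠ 0 := by
      rw [← inter_iUnion, inter_eq_left.2 ((Pos.le_iff.1 hB).trans hA)]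
      exact B.2.2
    obtain ⟨n, hn⟩ := exists_measure_pos_of_not_measure_iUnion_null this
    obtain ⟨C, hC, hC'⟩ := Pos.inter (hb1 n) hn.ne'
    exact ⟨C, hC, hb2 n C (by rw [hC']; exact inter_subset_right)⟩
  have hsup : μ (⋃ n, b n) = sSup S := by
    refine le_antisymm (le_sSup ⟨_, MeasurableSet.iUnion hb1, hU, rfl⟩) ?_
    refine le_of_tendsto' hu' fun n => ?_
    rw [← hb3 n]
    exact measure_mono (subset_iUnion _ _)
  refine ⟨⋃ n, b n, MeasurableSet.iUnion hb1, fun A => ⟨fun hA => ?_, fun hA => ?_⟩⟩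
  · by_contra hne
    have h1 : A.1 ∪ (⋃ n, b n) ∈ {b : Set Ω | MeasurableSet b ∧ ∀ A : Pos μ, A.1 ⊆ b → a A} := by
      refine ⟨A.2.1.union (MeasurableSet.iUnion hb1), fun B hB => RO.dense _ fun C hC => ?_⟩
      by_cases hCA : μ (C.1 ∩ A.1) = 0
      · have h2 : μ (C.1 \ A.1) ≠ 0 := by
          intro h
          refine C.2.2 ?_
          rw [← measure_inter_add_sdiff C.1 A.2.1, hCA, h, zero_add]
        refine ⟨⟨C.1 \ A.1, C.2.1.diff A.2.1, h2⟩, sdiff_subset, hU _ ?_⟩
        rintro x ⟨hx, hxA⟩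
        exact ((hB ((Pos.le_iff.1 hC) hx)).resolve_left hxA)
      · obtain ⟨D, hD, hD'⟩ := Pos.inter A.2.1 hCA
        refine ⟨D, hD, RO.mono _ ?_ hA⟩
        rw [Pos.le_iff, hD']
        exact inter_subset_right
    have h2 : μ (A.1 ∪ ⋃ n, b n) ≤ μ (⋃ n, b n) := by
      rw [hsup]
      exact le_sSup ⟨_, h1.1, h1.2, rfl⟩
    have h3 : μ (A.1 ∪ ⋃ n, b n) = μ (⋃ n, b n) + μ (A.1 \ ⋃ n, b n) := by
      rw [union_comm, ← union_sdiff_self, measure_union disjoint_sdiff_right
        (A.2.1.diff (MeasurableSet.iUnion hb1))]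
    rw [h3] at h2
    have h4 : μ (⋃ n, b n) < μ (⋃ n, b n) + μ (A.1 \ ⋃ n, b n) :=
      ENNReal.lt_add_right (measure_ne_top _ _) hne
    exact absurd h2 (not_le.2 h4)
  · refine RO.dense _ fun B hB => ?_
    have h1 : μ (B.1 ∩ ⋃ n, b n) ≠ 0 := by
      intro h
      refine B.2.2 ?_
      rw [← measure_inter_add_sdiff B.1 (MeasurableSet.iUnion hb1), h, zero_add]
      exact measure_mono_null (sdiff_subset_sdiff_left hB) hA
    obtain ⟨C, hC, hC'⟩ := Pos.inter (MeasurableSet.iUnion hb1) h1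
    exact ⟨C, hC, hU C (by rw [hC']; exact inter_subset_right)⟩

end Pool.Agent.Lib.MP_547692_lc
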