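import Pool.Agent.Lib.MP_547692_lc.Coin
import Pool.Agent.Lib.MP_547692_lc.Pos
import Pool.Agent.SymExt.Top.Decode

/-!
# The ground model reals are not null
-/

set_option linter.unusedSectionVars false
set_option linter.unusedVariables false
set_option linter.unusedSimpArgs false

namespace Pool.Agent.Lib.MP_547692_lc

open MeasureTheory Set Pool.Agent.SymExt SN
open scoped ENNReal

variable {Ω : Type} [MeasurableSpace Ω] {μ : Measure Ω} [IsProbabilityMeasure μ]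

/-- indices of the pieces -/
abbrev Jx : Type := Σ l : ℕ, Set (Fin l → Bool)

/-- the measure theoretic argument -/
theorem tonelli (q : Set Ω) (hq : μ q ≠ 0) (b : ℕ → Jx → Set Ω)
    (hb : ∀ n a, MeasurableSet (b n a)) (hqm : MeasurableSet q)
    (hd : ∀ n a a', a ≠ a' → μ (q ∩ b n a ∩ b n a') = 0)
    (hs : ∀ n a, μ (q ∩ b n a) ≠ 0 → Nat.card a.2 * 2 ^ (n + 2) ≤ 2 ^ a.1) :
    ∃ z : ℕ → Bool, μ (q \ ⋃ n, ⋃ a : Jx, ⋃ _ : (fun i : Fin a.1 => z i) ∈ a.2, b n a) ≠ 0 := by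
  classical
  let ind : Jx → (ℕ → Bool) → ℝ≥0∞ := fun a =>
    indicator {z : ℕ → Bool | (fun i : Fin a.1 => z i) ∈ a.2} 1
  have hind : ∀ a, Measurable (ind a) := fun a => measurable_one.indicator (measurableSet_fin a.2)
  let h : (ℕ → Bool) → ℝ≥0∞ := fun z => ∑' n, ∑' a : Jx, μ (q ∩ b n a) * ind a z
  have hint : ∫⁻ z, h z ∂(cm ℕ) = ∑' n, ∑' a : Jx, μ (q ∩ b n a) *
      cm ℕ {z | (fun i : Fin a.1 => z i) ∈ a.2} := by
    simp only [h]
    rw [lintegral_tsum (fun n => (Measurable.tsum fun a =>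
      (hind a).const_mul _).aemeasurable)]
    refine tsum_congr fun n => ?_
    rw [lintegral_tsum (fun a => ((hind a).const_mul _).aemeasurable)]
    refine tsum_congr fun a => ?_
    rw [lintegral_const_mul _ (hind a)]
    congr 1
    exact lintegral_indicator_one (measurableSet_fin a.2)
  have hdisj : ∀ n, ∑' a : Jx, μ (q ∩ b n a) ≤ μ q := by
    intro n
    have h1 : Pairwise (Function.onFun (AEDisjoint μ) fun a : Jx => q ∩ b n a) := by
      intro a a' haa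
      refine measure_mono_null ?_ (hd n a a' haa)
      rintro x ⟨⟨h1, h2⟩, _, h3⟩
      exact ⟨⟨h1, h2⟩, h3⟩
    refine (tsum_meas_le_meas_iUnion_of_disjoint₀ μ
      (fun a => (hqm.inter (hb n a)).nullMeasurableSet) h1).trans (measure_mono ?_)
    exact iUnion_subset fun a => inter_subset_left
  have hle : ∫⁻ z, h z ∂(cm ℕ) ≤ 2⁻¹ * μ q := by
    rw [hint]
    have h1 : ∀ n, ∑' a : Jx, μ (q ∩ b n a) * cm ℕ {z | (fun i : Fin a.1 => z i) ∈ a.2} ≤
        2⁻¹ ^ (n + 2) * μ q := by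
      intro n
      have h2 : ∀ a : Jx, μ (q ∩ b n a) * cm ℕ {z | (fun i : Fin a.1 => z i) ∈ a.2} ≤
          2⁻¹ ^ (n + 2) * μ (q ∩ b n a) := by
        intro a
        by_cases h0 : μ (q ∩ b n a) = 0
        · rw [h0, zero_mul]
          exact zero_le
        · rw [mul_comm]
          exact mul_le_mul_left (cm_set a.2 (hs n a h0)) _
      refine (ENNReal.tsum_le_tsum h2).trans ?_
      rw [ENNReal.tsum_mul_left]
      exact mul_le_mul_right (hdisj n) _
    refine (ENNReal.tsum_le_tsum h1).trans ?_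
    rw [ENNReal.tsum_mul_right]
    refine mul_le_mul_left ?_ _
    have h3 : ∑' n : ℕ, (2⁻¹ : ℝ≥0∞) ^ (n + 2) = 2⁻¹ := by
      simp only [pow_add]
      rw [ENNReal.tsum_mul_right, ENNReal.tsum_geometric, ENNReal.one_sub_inv_two, inv_inv,
        pow_two, ← mul_assoc, ENNReal.mul_inv_cancel (by simp) (by simp), one_mul]
    exact h3.le
  obtain ⟨z, hz⟩ := exists_le_lintegral (μ := cm ℕ) (f := h) (Measurable.aemeasurable
    (Measurable.tsum fun n => Measurable.tsum fun a => (hind a).const_mul _))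
  refine ⟨z, fun hcon => ?_⟩
  have h4 : μ (q ∩ ⋃ n, ⋃ a : Jx, ⋃ _ : (fun i : Fin a.1 => z i) ∈ a.2, b n a) ≤ h z := by
    simp only [inter_iUnion]
    refine (measure_iUnion_le _).trans (ENNReal.tsum_le_tsum fun n => ?_)
    refine (measure_iUnion_le _).trans (ENNReal.tsum_le_tsum fun a => ?_)
    by_cases hza : (fun i : Fin a.1 => z i) ∈ a.2
    · have : ind a z = 1 := by
        simp only [ind]
        rw [indicator_of_mem (show z ∈ {z : ℕ → Bool | (fun i : Fin a.1 => z i) ∈ a.2} from hza)]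
        rfl
      rw [this, mul_one]
      simp [hza]
    · simp [hza]
  have hR : MeasurableSet (⋃ n, ⋃ a : Jx, ⋃ _ : (fun i : Fin a.1 => z i) ∈ a.2, b n a) :=
    MeasurableSet.iUnion fun n => MeasurableSet.iUnion fun a => MeasurableSet.iUnion fun _ => hb n a
  have h5 := measure_inter_add_sdiff (μ := μ) q hR
  rw [hcon, add_zero] at h5
  rw [h5] at h4
  have h6 : μ q ≤ 2⁻¹ * μ q := h4.trans (hz.trans hle)
  have h7 : 2⁻¹ * μ q < μ q := by
    calc 2⁻¹ * μ q < 1 * μ q :=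
          ENNReal.mul_lt_mul_left hq (measure_ne_top _ _) (by simp)
      _ = μ q := one_mul _
  exact absurd h6 (not_le.2 h7)

/-- the set of the ground model reals -/
noncomputable def S0 : VN (Pos μ) := fm fun z : ℕ → Bool => rnm z

theorem m_S0 {x : VN (Pos μ)} {p : Pos μ} :
    m x S0 p ↔ ∀ q ≤ p, ∃ r ≤ q, ∃ z : ℕ → Bool, e x (rnm z) r := m_fm

theorem rnm_S0 (z : ℕ → Bool) (p : Pos μ) : m (rnm z) S0 p := m_fm_self z

theorem gn_inj {l : ℕ} {G G' : Set (Fin l → Bool)} {p : Pos μ} (h : e (gn G) (gn G') p) :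
    G = G' := by
  ext s
  rw [← stn_gn (p := p), ← stn_gn (p := p) (G := G')]
  exact ⟨fun h1 => m_right h h1, fun h1 => m_right (e_symm h) h1⟩

theorem not_null (p : Pos μ) : ¬ lg.null (om (Pos μ)) (on 2) S0 p := by
  intro h
  simp only [Lg.null, ro_all, ro_imp, ro_and, ro_mem, ro_ex, app_iff, sub_iff] at h
  let jn : VN (Pos μ) := fnm on fun n => on (n + 2)
  have hj : ∀ p, lg.isFun jn (om (Pos μ)) (om (Pos μ)) p := fun p =>
    isFun_fnm rig_on (fun x r hr hx s hs => m_om.1 hx s hs) (fun n => m_on_om n p)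
      (fun n => m_on_om _ p)
  have hjn : ∀ n p, m (op (on n) (on (n + 2))) jn p := fun n p => m_op_fnm.2 fun q _ =>
    ⟨q, le_rfl, n, e_refl _ _, e_refl _ _⟩
  obtain ⟨p1, hp1, k, h1⟩ := h jn p le_rfl (hj p) p le_rfl
  obtain ⟨p2, hp2, F, h2⟩ := h1 p1 le_rfl
  obtain ⟨q, hq, B, hk, hF, hsm, hcov⟩ := h2 p2 le_rfl
  clear h h1 h2
  let val : ℕ → Jx → RO (Pos μ) := fun n a =>
    (lg : Lg (RO (Pos μ)) (VN (Pos μ))).and (m (op (on n) (on a.1)) k) (m (op (on n) (gn a.2)) F)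
  have hval : ∀ n a r, val n a r ↔ m (op (on n) (on a.1)) k r ∧ m (op (on n) (gn a.2)) F r :=
    fun n a r => ro_and (p := r) m e _ _
  have hdec : ∀ n, ∀ r ≤ q, ∃ s ≤ r, ∃ a : Jx, val n a s := by
    intro n r hr
    obtain ⟨s, hs, y, hy, hyo⟩ := app_on hk n r hr
    obtain ⟨t, ht, l, hl⟩ := m_om.1 hyo s le_rfl
    obtain ⟨u, hu, c, hc, _⟩ := app_on hF n t (ht.trans (hs.trans hr))
    have hut := hu.trans ht
    have h3 : m (op (on n) (on l)) k u := m_left (op_congr (e_refl _ _) (RO.mono _ hu hl))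
      (RO.mono _ hut hy)
    have h4 := hsm (on n) (on (n + 2)) (on l) c u (hut.trans (hs.trans hr)) ⟨hjn n u, h3, hc⟩
    have h5 : ∀ x, ∀ v ≤ u, m x c v → lg.isFun x (on l) (on 2) v := by
      simp only [Lg.small, ro_and, ro_all, ro_imp, ro_mem] at h4
      exact h4.1
    obtain ⟨v, hv, G, hG⟩ := decide_set h5 u le_rfl
    exact ⟨v, hv.trans (hut.trans hs), ⟨l, G⟩, (hval _ _ _).2 ⟨RO.mono _ hv h3,
      m_left (op_congr (e_refl _ _) hG) (RO.mono _ hv hc)⟩⟩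
  choose b hb1 hb2 using fun (n : ℕ) (a : Jx) => rep (val n a)
  have hin : ∀ n a (C : Pos μ), C.1 ⊆ b n a → val n a C := by
    intro n a C hC
    rw [hb2, sdiff_eq_empty.2 hC]
    exact measure_empty
  obtain ⟨z, hz⟩ := tonelli q.1 q.2.2 b hb1 q.2.1 (fun n a a' haa => by
    by_contra hne
    let C : Pos μ := ⟨q.1 ∩ b n a ∩ b n a', (q.2.1.inter (hb1 n a)).inter (hb1 n a'), hne⟩
    have hCq : C ≤ q := fun x hx => hx.1.1
    have h3 := (hval _ _ _).1 (hin n a C fun x hx => hx.1.2)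
    have h4 := (hval _ _ _).1 (hin n a' C fun x hx => hx.2)
    obtain ⟨l, G⟩ := a
    obtain ⟨l', G'⟩ := a'
    have h5 : l = l' := rig_on _ _ _ (fun_unique hk hCq h3.1 h4.1)
    subst h5
    have h6 : G = G' := gn_inj (fun_unique hF hCq h3.2 h4.2)
    exact haa (by rw [h6])) (fun n a hne => by
    let C : Pos μ := ⟨q.1 ∩ b n a, q.2.1.inter (hb1 n a), hne⟩
    have hCq : C ≤ q := fun x hx => hx.1
    have h3 := (hval _ _ _).1 (hin n a C fun x hx => hx.2)
    exact small_card (hsm (on n) (on (n + 2)) (on a.1) (gn a.2) C hCq ⟨hjn n C, h3.1, h3.2⟩)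
      (e_refl _ _))
  have hR : MeasurableSet (⋃ n, ⋃ a : Jx, ⋃ _ : (fun i : Fin a.1 => z i) ∈ a.2, b n a) :=
    MeasurableSet.iUnion fun n => MeasurableSet.iUnion fun a => MeasurableSet.iUnion fun _ =>
      hb1 n a
  let q' : Pos μ := ⟨_, q.2.1.diff hR, hz⟩
  have hq' : q' ≤ q := fun x hx => hx.1
  obtain ⟨r1, hr1, x, h3⟩ := hcov (rnm z) q' hq' (rnm_S0 z q') q' le_rfl
  obtain ⟨r2, hr2, c, h4⟩ := h3 r1 le_rfl
  obtain ⟨r3, hr3, s, h5, h6, h7⟩ := h4 r2 le_rfl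
  clear h3 h4
  have hr3q' : r3 ≤ q' := hr3.trans (hr2.trans hr1)
  obtain ⟨r4, hr4, n, hn⟩ := (arg_on hF (hr3q'.trans hq') h5).1 r3 le_rfl
  obtain ⟨r5, hr5, a, ha⟩ := hdec n r4 (hr4.trans (hr3q'.trans hq'))
  have h53 : r5 ≤ r3 := hr5.trans hr4
  obtain ⟨ha1, ha2⟩ := (hval _ _ _).1 ha
  have hc : e c (gn a.2) r5 := fun_unique hF (h53.trans (hr3q'.trans hq'))
    (m_left (op_congr (RO.mono _ hr5 hn) (e_refl _ _)) (RO.mono _ h53 h5)) ha2
  obtain ⟨r6, hr6, u, hu, hsu⟩ := m_gn.1 (m_right hc (RO.mono _ h53 h6)) r5 le_rfl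
  have hzu : (fun i : Fin a.1 => z i) = u := by
    funext i
    have h8 : m (op (on i) (on (u i).toNat)) (stn u : VN (Pos μ)) r6 := m_stn.2 rfl
    exact m_rnm.1 (h7 _ r6 (hr6.trans h53) (m_right (e_symm hsu) h8))
  have h9 : μ (r6.1 \ b n a) = 0 := (hb2 n a r6).1 (RO.mono _ hr6 ha)
  refine r6.2.2 (measure_mono_null ?_ h9)
  intro y hy
  refine ⟨hy, fun hyb => ?_⟩
  have h10 : y ∈ q'.1 := (hr6.trans (h53.trans hr3q')) hy
  refine h10.2 ?_
  simp only [mem_iUnion]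
  exact ⟨n, a, by rw [hzu]; exact hu, hyb⟩

end Pool.Agent.Lib.MP_547692_lc
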