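import Pool.Agent.Lib.MP_547692_lc.Null

/-!
# Random slopes
-/

set_option linter.unusedSectionVars false
set_option linter.unusedVariables false
set_option linter.unusedSimpArgs false

namespace Pool.Agent.Lib.MP_547692_lc

open MeasureTheory Set Pool.Agent.SymExt SN
open scoped ENNReal

section pairing

variable {P : Type} [PartialOrder P] [OrderTop P]

/-- the name of the pairing function -/
noncomputable def prn : VN P :=
  fm fun a : ℕ × ℕ => op (op (on a.1) (on a.2)) (on (Nat.pair a.1 a.2))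

theorem m_prn {x y z : VN P} {p : P} : m (op (op x y) z) prn p ↔ ∀ q ≤ p, ∃ r ≤ q, ∃ i j,
    e x (on i) r ∧ e y (on j) r ∧ e z (on (Nat.pair i j)) r := by
  unfold prn
  rw [m_fm]
  refine forall_congr' fun q => forall_congr' fun _ => exists_congr fun r =>
    and_congr_right fun _ => ?_
  constructor
  · rintro ⟨⟨i, j⟩, h⟩
    obtain ⟨h1, h2⟩ := op_inj h
    obtain ⟨h3, h4⟩ := op_inj h1
    exact ⟨i, j, h3, h4, h2⟩
  · rintro ⟨i, j, h1, h2, h3⟩
    exact ⟨(i, j), op_congr (op_congr h1 h2) h3⟩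

theorem on_prn (i j : ℕ) (p : P) : m (op (op (on i) (on j)) (on (Nat.pair i j))) prn p :=
  m_prn.2 fun q _ => ⟨q, le_rfl, i, j, e_refl _ _, e_refl _ _, e_refl _ _⟩

theorem forced_pairing (p : P) : lg.pairing (om P) prn p := by
  simp only [Lg.pairing, ro_and, ro_all, ro_imp, ro_ex, ro_mem, ro_eq, ap2_iff]
  refine ⟨?_, ?_, ?_, ?_⟩
  · rintro x y q hq ⟨hx, hy⟩ r hr
    obtain ⟨s, hs, i, hi⟩ := m_om.1 hx r hr
    obtain ⟨t, ht, j, hj⟩ := m_om.1 hy s (hs.trans hr)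
    exact ⟨t, ht.trans hs, on (Nat.pair i j), m_on_om _ _, m_left (op_congr (op_congr
      (e_symm (RO.mono _ ht hi)) (e_symm hj)) (e_refl _ _)) (on_prn i j t)⟩
  · rintro x y x' y' z q hq ⟨h, h'⟩
    rw [m_prn] at h h'
    have key : ∀ r ≤ q, ∃ s ≤ r, e x x' s ∧ e y y' s := by
      intro r hr
      obtain ⟨s, hs, i, j, h1, h2, h3⟩ := h r hr
      obtain ⟨t, ht, i', j', h4, h5, h6⟩ := h' s (hs.trans hr)
      have h7 := rig_on _ _ _ (e_trans (e_symm (RO.mono _ ht h3)) h6)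
      rw [Nat.pair_eq_pair] at h7
      obtain ⟨rfl, rfl⟩ := h7
      exact ⟨t, ht.trans hs, e_trans (RO.mono _ ht h1) (e_symm h4),
        e_trans (RO.mono _ ht h2) (e_symm h5)⟩
    exact ⟨RO.dense _ fun r hr => (key r hr).imp fun s hs => ⟨hs.1, hs.2.1⟩,
      RO.dense _ fun r hr => (key r hr).imp fun s hs => ⟨hs.1, hs.2.2⟩⟩
  · rintro x y z z' q hq ⟨h, h'⟩
    rw [m_prn] at h h'
    refine RO.dense _ fun r hr => ?_
    obtain ⟨s, hs, i, j, h1, h2, h3⟩ := h r hr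
    obtain ⟨t, ht, i', j', h4, h5, h6⟩ := h' s (hs.trans hr)
    have h7 := rig_on _ _ _ (e_trans (e_symm (RO.mono _ ht h1)) h4)
    have h8 := rig_on _ _ _ (e_trans (e_symm (RO.mono _ ht h2)) h5)
    subst h7
    subst h8
    exact ⟨t, ht.trans hs, e_trans (RO.mono _ ht h3) (e_symm h6)⟩
  · intro x y z q hq h
    rw [m_prn] at h
    exact ⟨RO.dense _ fun r hr => by
        obtain ⟨s, hs, i, j, h1, h2, h3⟩ := h r hr
        exact ⟨s, hs, m_left (e_symm h1) (m_on_om _ _)⟩, RO.dense _ fun r hr => by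
        obtain ⟨s, hs, i, j, h1, h2, h3⟩ := h r hr
        exact ⟨s, hs, m_left (e_symm h2) (m_on_om _ _)⟩⟩

end pairing

variable {Ω : Type} [MeasurableSpace Ω] {μ : Measure Ω} [IsProbabilityMeasure μ]

theorem exists_mnm (X : ℕ → Ω → Bool) : ∃ x : VN (Pos μ), ∀ z p, m z x p ↔ ∀ q ≤ p, ∃ r ≤ q,
    ∃ a : ℕ × Bool, μ (r.1 \ {ω | X a.1 ω = a.2}) = 0 ∧ e z (op (on a.1) (on a.2.toNat)) r :=
  exists_nn (P := Pos μ) (fun a : ℕ × Bool => op (on a.1) (on a.2.toNat))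
    (fun a A => μ (A.1 \ {ω | X a.1 ω = a.2}) = 0)
    (fun a {p q} hq h => measure_mono_null (sdiff_subset_sdiff_left hq) h)

/-- the name of the random real given by `X` -/
noncomputable def mnm (X : ℕ → Ω → Bool) : VN (Pos μ) := (exists_mnm X).choose

theorem m_mnm' {X : ℕ → Ω → Bool} {z : VN (Pos μ)} {p : Pos μ} : m z (mnm X) p ↔ ∀ q ≤ p, ∃ r ≤ q,
    ∃ a : ℕ × Bool, μ (r.1 \ {ω | X a.1 ω = a.2}) = 0 ∧ e z (op (on a.1) (on a.2.toNat)) r :=
  (exists_mnm X).choose_spec z p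

theorem m_mnm {X : ℕ → Ω → Bool} (hX : ∀ n, Measurable (X n)) {n : ℕ} {b : Bool} {p : Pos μ} :
    m (op (on n) (on b.toNat)) (mnm X) p ↔ μ (p.1 \ {ω | X n ω = b}) = 0 := by
  rw [m_mnm']
  have hm : MeasurableSet {ω | X n ω = b} := hX n (measurableSet_singleton b)
  constructor
  · intro h
    by_contra hne
    let q : Pos μ := ⟨_, p.2.1.diff hm, hne⟩
    obtain ⟨r, hr, ⟨n', b'⟩, h1, h2⟩ := h q (fun x hx => hx.1)
    obtain ⟨h3, h4⟩ := op_inj h2
    have h5 := rig_on _ _ _ h3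
    have h6 := toNat_inj h4
    simp only at h5 h6
    subst h5
    subst h6
    exact r.2.2 (measure_mono_null (show r.1 ⊆ r.1 \ {ω | X n ω = b} from
      fun x hx => ⟨hx, (hr hx).2⟩) h1)
  · intro h q hq
    exact ⟨q, le_rfl, (n, b), measure_mono_null (sdiff_subset_sdiff_left hq) h, e_refl _ _⟩

theorem isFun_mnm {X : ℕ → Ω → Bool} (hX : ∀ n, Measurable (X n)) (p : Pos μ) :
    lg.isFun (mnm X) (om (Pos μ)) (on 2) p := by
  rw [isFun_iff]
  refine ⟨?_, ?_, ?_⟩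
  · intro z q hq hz r hr
    obtain ⟨s, hs, a, _, ha⟩ := m_mnm'.1 hz r hr
    exact ⟨s, hs, on a.1, on a.2.toNat, m_on_om _ _, m_on_on.2 (toNat_lt _), ha⟩
  · intro x q hq hx r hr
    obtain ⟨s, hs, n, hn⟩ := m_om.1 hx r hr
    have hm : ∀ b, MeasurableSet {ω | X n ω = b} := fun b => hX n (measurableSet_singleton b)
    have key : ∃ b : Bool, μ (s.1 ∩ {ω | X n ω = b}) ≠ 0 := by
      by_contra hcon
      push Not at hcon
      refine s.2.2 (measure_mono_null (t := (s.1 ∩ {ω | X n ω = true}) ∪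
        (s.1 ∩ {ω | X n ω = false})) ?_ (measure_union_null (hcon true) (hcon false)))
      intro ω hω
      cases h : X n ω
      · exact Or.inr ⟨hω, h⟩
      · exact Or.inl ⟨hω, h⟩
    obtain ⟨b, hb⟩ := key
    let t : Pos μ := ⟨_, s.2.1.inter (hm b), hb⟩
    have ht : t ≤ s := fun x hx => hx.1
    refine ⟨t, ht.trans hs, on b.toNat, m_left (op_congr (e_symm (RO.mono _ ht hn)) (e_refl _ _))
      ((m_mnm hX).2 ?_)⟩
    rw [sdiff_eq_empty.2 (fun x hx => hx.2)]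
    exact measure_empty
  · intro x y y' q hq h h'
    refine RO.dense _ fun r hr => ?_
    obtain ⟨s, hs, ⟨n, b⟩, h1, h2⟩ := m_mnm'.1 h r hr
    obtain ⟨t, ht, ⟨n', b'⟩, h3, h4⟩ := m_mnm'.1 h' s (hs.trans hr)
    obtain ⟨h5, h6⟩ := op_inj h2
    obtain ⟨h7, h8⟩ := op_inj h4
    have h9 : n = n' := rig_on _ _ _ (e_trans (e_symm (RO.mono _ ht h5)) h7)
    subst h9
    have h10 : b = b' := by
      by_contra hbb
      refine t.2.2 (measure_mono_null (t := (s.1 \ {ω | X n ω = b}) ∪ (t.1 \ {ω | X n ω = b'})) ?_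
        (measure_union_null h1 h3))
      intro ω hω
      by_cases hXb : X n ω = b
      · refine Or.inr ⟨hω, fun h => hbb ?_⟩
        rw [← hXb]
        exact h
      · exact Or.inl ⟨ht hω, hXb⟩
    subst h10
    exact ⟨t, ht.trans hs, e_trans (RO.mono _ ht h6) (e_symm h8)⟩

end Pool.Agent.Lib.MP_547692_lc
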