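import Pool.Agent.Lib.MP_547692_lc.Main

/-!
# The random reals
-/

set_option linter.unusedSectionVars false
set_option linter.unusedVariables false
set_option linter.unusedSimpArgs false

namespace Pool.Agent.Lib.MP_547692_lc

open MeasureTheory Set Pool.Agent.SymExt SN Filter Topology
open scoped ENNReal

/-- index set of the random reals -/
abbrev Ld : Type := Set (ℕ → Bool)

/-- the probability measure -/
noncomputable abbrev rm : Measure (Ld × ℕ → Bool) := cm (Ld × ℕ)

/-- the random reals -/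
def Xr (α : Ld) (n : ℕ) (ω : Ld × ℕ → Bool) : Bool := ω (α, n)

theorem Xr_meas (α : Ld) (n : ℕ) : Measurable (Xr α n) := measurable_pi_apply (α, n)

theorem Xr_diff (α β : Ld) (h : α ≠ β) : rm {ω | ∀ n, Xr α n ω = Xr β n ω} = 0 := by
  classical
  have key : ∀ N : ℕ, rm {ω | ∀ n, Xr α n ω = Xr β n ω} ≤ (2⁻¹ : ℝ≥0∞) ^ N := by
    intro N
    let I : Finset (Ld × ℕ) := ({α, β} : Finset Ld) ×ˢ Finset.range N
    have hI : I.card = 2 * N := by
      rw [Finset.card_product, Finset.card_range, Finset.card_pair h]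
    let v : (Fin N → Bool) → Ld × ℕ → Bool := fun u a => if h : a.2 < N then u ⟨a.2, h⟩ else true
    have h1 : {ω | ∀ n, Xr α n ω = Xr β n ω} ⊆
        ⋃ u ∈ (Finset.univ : Finset (Fin N → Bool)), {ω | ∀ i ∈ I, ω i = v u i} := by
      intro ω hω
      simp only [mem_iUnion, Finset.mem_univ, exists_prop, true_and]
      refine ⟨fun i => ω (α, i), ?_⟩
      rintro ⟨γ, i⟩ hi
      obtain ⟨h2, h3⟩ := Finset.mem_product.1 hi
      have h3' : i < N := Finset.mem_range.1 h3
      simp only [v, dif_pos h3']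
      simp only [Finset.mem_insert, Finset.mem_singleton] at h2
      rcases h2 with rfl | rfl
      · rfl
      · exact (hω i).symm
    refine (measure_mono h1).trans ((measure_biUnion_finset_le _ _).trans ?_)
    have h2 : ∀ u ∈ (Finset.univ : Finset (Fin N → Bool)),
        rm {ω | ∀ i ∈ I, ω i = v u i} ≤ 2⁻¹ ^ (2 * N) := by
      intro u _
      rw [← hI]
      exact (cm_cyl I (v u)).le
    refine (Finset.sum_le_sum h2).trans ?_
    rw [Finset.sum_const, Finset.card_univ, Fintype.card_fun, Fintype.card_bool, Fintype.card_fin,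
      nsmul_eq_mul, two_mul, pow_add, ← mul_assoc]
    have h3 : ((2 ^ N : ℕ) : ℝ≥0∞) * 2⁻¹ ^ N = 1 := by
      push_cast
      rw [← mul_pow, ENNReal.mul_inv_cancel (by simp) (by simp), one_pow]
    rw [h3, one_mul]
  have h4 : Tendsto (fun N : ℕ => (2⁻¹ : ℝ≥0∞) ^ N) atTop (𝓝 0) :=
    ENNReal.tendsto_pow_atTop_nhds_zero_of_lt_one (by simp)
  exact le_antisymm (ge_of_tendsto' h4 key) (zero_le)

theorem pigeon (h : Ld → ((ℕ → Bool) × (ℕ → Bool) × (ℕ → Bool) × (ℕ → Bool))) :
    ∃ v, Uncountable (h ⁻¹' {v}) := by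
  have h1 : Cardinal.mk (ℕ → Bool) * Cardinal.mk (ℕ → Bool) = Cardinal.mk (ℕ → Bool) :=
    Cardinal.mul_eq_self (Cardinal.aleph0_le_mk _)
  have h2 : Cardinal.mk ((ℕ → Bool) × (ℕ → Bool) × (ℕ → Bool) × (ℕ → Bool)) <
      Cardinal.mk Ld := by
    rw [Cardinal.mk_set, Cardinal.mk_prod, Cardinal.mk_prod, Cardinal.mk_prod]
    simp only [Cardinal.lift_id]
    rw [h1, h1, h1]
    exact Cardinal.cantor _
  have h3 : Uncountable Ld := by
    rw [← Cardinal.aleph0_lt_mk_iff, Cardinal.mk_set]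
    exact (Cardinal.aleph0_le_mk (ℕ → Bool)).trans_lt (Cardinal.cantor _)
  exact Cardinal.exists_uncountable_fiber h h2

theorem forced_rnd (p : Pos rm) : (lg : Lg (RO (Pos rm)) (VN (Pos rm))).rnd p := by
  simp only [Lg.rnd, ro_ex, ro_and]
  intro q _
  exact ⟨q, le_rfl, om _, fun q1 _ => ⟨q1, le_rfl, on 2, fun q2 _ => ⟨q2, le_rfl, prn,
    isOm_om _, forced_two _, forced_pairing _, forced_slope Xr Xr_meas Xr_diff pigeon _⟩⟩⟩

end Pool.Agent.Lib.MP_547692_lc
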